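import Mathlib
import Pool.Agent.KS6_75.SOP.Defs
import Pool.Agent.KS6_75.SOP.Main

/-!
# The theory of the hyperfinite II₁ factor has the strict order property and TP₂

The continuous logic (`TVNA`, `Fml`, `TVNA.theory`, `IsSimple`) is that of the library module
`H690R2/NS/Defs.lean`; `IsFactor`, `ContainsCAR`, `HasSOP` and `HasTP2` are defined in
`Pool/Agent/KS6_75/SOP/Defs.lean`.

Idea of the proof. Let `N_k` be a unital copy of `M_n(ℂ)`, `n = 2^(k+1)`, in `M`, with
`N_0 ⊆ N_1 ⊆ …`. The shift unitary `X`, the Gauss unitary `D = diag(exp(π i j² / n))` and the Fourier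
unitary `F` of `N_k` have a spectral gap that does not depend on `k`:
`‖x - E(x)‖₂ ≤ 60 (‖[x, X]‖₂ + ‖[x, D]‖₂ + ‖[x, F]‖₂)` for all `x` in `M`, where `E` is the
expectation onto the relative commutant of `N_k`. Indeed the norms of the components of `x` for the
characters of the group `(ℤ/n)²` generated by the conjugations by the clock and the shift form a
function on `(ℤ/n)²`, on which `D` acts as the shear `(a, b) ↦ (a + b, b)` and `F` as the rotation
`(a, b) ↦ (-b, a)`, and an argument with sectors (as for the expanders of Margulis) shows that it
cannot be almost invariant away from the origin. So the formula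
`inf_z (‖x - z‖₂ + 60 (‖[z, y_0]‖₂ + ‖[z, y_1]‖₂ + ‖[z, y_2]‖₂))` has at `(X_k, D_k, F_k)` the value
`dist(x, N_k' ∩ M)`, which increases with `k`, and has the values `0` and `1` at the symmetry of the
tensor factor number `k + 1`, for `N_i` with `i ≤ k` and `i > k`.
-/

namespace Pool.Agent.Results.MP_baa3fb_lc.StrictOrderProperty

open Pool.Agent.Helper278 Pool.Agent.H690R2.NS Pool.Agent.KS6_75.SOP

/-- The complete continuous theory of every II₁ factor `M` (in
particular of the hyperfinite one), and of every tracial von Neumann algebra `M` that contains a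
unital copy of the CAR algebra, has the strict order property and the tree property of the second
kind; and it is not simple. -/
theorem result :
    ∀ M : TVNA, (IsFactor M ∨ ContainsCAR M) →
      HasSOP M.theory ∧ HasTP2 M.theory ∧ ¬ IsSimple M.theory :=
  fun M hM => all_of_car M (hM.elim (car_of_factor M) id)

end Pool.Agent.Results.MP_baa3fb_lc.StrictOrderProperty
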